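import Pool.Agent.Lib.MP_ecbb05_mp.Defs
import Pool.Agent.Lib.MP_ecbb05_mp.Law

/-!
# An atom in the wavelength capacity distribution: the figure-eight graph

For the figure-eight graph (one vertex, two loops) with rationally independent lengths, the
wavelength capacity at the vertex equals `2` for every generic eigenfunction, and there are
infinitely many of these. So the atomic part is a unit mass at `2`.
-/

set_option autoImplicit false

open Set Pool.Agent.Lib.MP_ecbb05_mp MetricGraph

namespace Pool.Agent.Results.MP_ecbb05_mp.FigureEight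

/-- The figure-eight graph with rationally independent edge lengths: `ρ^{(v)} = 2` on all of `𝒢`,
and the discrete part of the distribution is a unit atom at `2`. -/
theorem result :
    (∃ (a b : ℝ) (ha : 0 < a) (hb : 0 < b), LinearIndependent ℚ (figureEight a b ha hb).len) ∧
    ∀ (a b : ℝ) (ha : 0 < a) (hb : 0 < b),
      LinearIndependent ℚ (figureEight a b ha hb).len →
      (figureEight a b ha hb).IsStandard ∧
      (∃ (k : ℕ → ℝ) (f : ℕ → (figureEight a b ha hb).Point → ℝ),
        (figureEight a b ha hb).IsSpectralList k f) ∧
      ∀ (v : (figureEight a b ha hb).V) (k : ℕ → ℝ) (f : ℕ → (figureEight a b ha hb).Point → ℝ),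
        (figureEight a b ha hb).IsSpectralList k f →
        3 ≤ (figureEight a b ha hb).deg v ∧
        {n | (figureEight a b ha hb).IsGeneric k f n}.Infinite ∧
        (∀ n : ℕ, (figureEight a b ha hb).IsGeneric k f n →
          (figureEight a b ha hb).capacity v k f n = 2) ∧
        (∀ ε : ℝ, 0 < ε → HasDensity {n | (figureEight a b ha hb).IsGeneric k f n}
          {n | (figureEight a b ha hb).IsGeneric k f n ∧
            (figureEight a b ha hb).capacity v k f n ∈ Ioo (2 - ε) (2 + ε)} 1) ∧
        (∃ dens p : ℝ → ℝ, (figureEight a b ha hb).IsCapacityLaw v k f dens p) ∧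
        (∀ dens p : ℝ → ℝ, (figureEight a b ha hb).IsCapacityLaw v k f dens p → p 2 = 1) := by
  refine ⟨exists_lengths, ?_⟩
  intro a b ha hb h
  refine ⟨standard8, exists_list h, ?_⟩
  intro v k f hl
  refine ⟨by rw [deg8]; norm_num, infinite_generic h hl, fun n hn => capacity_generic hl hn v,
    ?_, ⟨_, _, law_exists h hl v⟩, fun dens p hlaw => law_atom h hl v hlaw⟩
  intro ε hε
  apply hasDensity_self (infinite_generic h hl)
  ext n
  simp only [mem_ofPred_eq]
  constructor
  · exact fun h => h.1
  · intro hn
    refine ⟨hn, ?_⟩
    rw [capacity_generic hl hn v]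
    exact ⟨by linarith, by linarith⟩

end Pool.Agent.Results.MP_ecbb05_mp.FigureEight
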